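import Mathlib

/-! Package MX: a matrix of algebraic numbers with prescribed generic ranks. -/

set_option autoImplicit false

namespace Pool.Agent.Helper18.SL

open Module Submodule

/-- an algebraic number with many rationally independent powers -/
theorem exists_pow (n : ℕ) : ∃ θ : ℂ, IsAlgebraic ℚ θ ∧
    LinearIndependent ℚ fun i : Fin n => θ ^ (i : ℕ) := by
  obtain ⟨p, hp, hprime⟩ := Nat.exists_infinite_primes (n + 1)
  have hp0 : p ≠ 0 := hprime.ne_zero
  have hζ := Complex.isPrimitiveRoot_exp p hp0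
  set ζ := Complex.exp (2 * Real.pi * Complex.I / p) with hζd
  have h1 := Polynomial.cyclotomic_eq_minpoly_rat hζ hprime.pos
  have h2 : n ≤ (minpoly ℚ ζ).natDegree := by
    rw [← h1, Polynomial.natDegree_cyclotomic, Nat.totient_prime hprime]
    omega
  have h3 := linearIndependent_pow (K := ℚ) ζ
  have h4 : IsIntegral ℚ ζ := (hζ.isIntegral hprime.pos).tower_top
  exact ⟨ζ, h4.isAlgebraic, h3.comp (Fin.castLE h2) (Fin.castLE_injective h2)⟩

/-- the exponents are distinct -/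
theorem exp_injective {N m R : ℕ} (hm : m ≤ R) :
    Function.Injective fun f : Fin m → Fin N => ∑ j, 2 ^ ((f j : ℕ) * R + (j : ℕ)) := by
  intro f g hfg
  have hinj : ∀ f : Fin m → Fin N, Function.Injective fun j : Fin m => (f j : ℕ) * R + (j : ℕ) := by
    intro f i j hij
    have hi : (i : ℕ) < R := lt_of_lt_of_le i.2 hm
    have hj : (j : ℕ) < R := lt_of_lt_of_le j.2 hm
    have h1 := congrArg (· % R) hij
    simp only [Nat.mul_add_mod_self_right, Nat.mod_eq_of_lt hi, Nat.mod_eq_of_lt hj] at h1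
    exact Fin.ext h1
  have hsum : ∀ f : Fin m → Fin N, ∑ j, 2 ^ ((f j : ℕ) * R + (j : ℕ)) =
      ∑ k ∈ Finset.univ.image (fun j : Fin m => (f j : ℕ) * R + (j : ℕ)), 2 ^ k := by
    intro f
    rw [Finset.sum_image fun i _ j _ h => hinj f h]
  simp only at hfg
  rw [hsum f, hsum g] at hfg
  have h2 := Finset.geomSum_injective (le_refl 2) hfg
  funext j
  have h3 : (f j : ℕ) * R + (j : ℕ) ∈ Finset.univ.image (fun j : Fin m => (g j : ℕ) * R + (j : ℕ)) := by
    rw [← h2]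
    exact Finset.mem_image.2 ⟨j, Finset.mem_univ j, rfl⟩
  obtain ⟨i, -, hi⟩ := Finset.mem_image.1 h3
  have hiR : (i : ℕ) < R := lt_of_lt_of_le i.2 hm
  have hjR : (j : ℕ) < R := lt_of_lt_of_le j.2 hm
  have h4 := congrArg (· % R) hi
  simp only [Nat.mul_add_mod_self_right, Nat.mod_eq_of_lt hiR, Nat.mod_eq_of_lt hjR] at h4
  have h5 : i = j := Fin.ext h4
  subst h5
  have h6 : (g i : ℕ) * R = (f i : ℕ) * R := by omega
  have hR : 0 < R := by omega
  exact Fin.ext (Nat.eq_of_mul_eq_mul_right hR h6).symm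

/-- Cauchy-Binet, expanded -/
theorem det_expand {N m : ℕ} (u : Fin m → Fin N → ℚ) (W : Fin N → Fin m → ℂ) :
    (Matrix.of fun j a : Fin m => ∑ i, ((u a i : ℚ) : ℂ) * W i j).det =
      ∑ f : Fin m → Fin N, (∏ j, W (f j) j) *
        (((Matrix.of fun j a : Fin m => u a (f j)).det : ℚ) : ℂ) := by
  have h1 : (Matrix.of fun j a : Fin m => ∑ i, ((u a i : ℚ) : ℂ) * W i j).det =
      Matrix.detRowAlternating (fun j : Fin m => ∑ i, (W i j • fun a : Fin m => ((u a i : ℚ) : ℂ))) := by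
    change Matrix.detRowAlternating (fun j a : Fin m => ∑ i, ((u a i : ℚ) : ℂ) * W i j) = _
    congr 1
    funext j a
    rw [Finset.sum_apply]
    refine Finset.sum_congr rfl fun i _ => ?_
    rw [Pi.smul_apply, smul_eq_mul, mul_comm]
  rw [h1]
  have h2 := (Matrix.detRowAlternating (n := Fin m) (R := ℂ)).toMultilinearMap.map_sum
    (fun (j : Fin m) (i : Fin N) => W i j • fun a : Fin m => ((u a i : ℚ) : ℂ))
  refine h2.trans (Finset.sum_congr rfl fun f _ => ?_)
  have h3 := (Matrix.detRowAlternating (n := Fin m) (R := ℂ)).toMultilinearMap.map_smul_univ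
    (fun j => W (f j) j) (fun (j : Fin m) (a : Fin m) => ((u a (f j) : ℚ) : ℂ))
  refine h3.trans ?_
  rw [smul_eq_mul]
  congr 1
  have h4 : (((Matrix.of fun j a : Fin m => u a (f j)).det : ℚ) : ℂ) =
      ((Matrix.of fun j a : Fin m => u a (f j)).map (algebraMap ℚ ℂ)).det := by
    rw [← RingHom.mapMatrix_apply, ← RingHom.map_det]
    rfl
  rw [h4]
  rfl

/-- the core: a nonzero minor -/
theorem minor_ne {N m R : ℕ} (hm : m ≤ R) {θ : ℂ} {n : ℕ} (hn : m * 2 ^ (N * R) < n)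
    (hθ : LinearIndependent ℚ fun i : Fin n => θ ^ (i : ℕ)) (u : Fin m → Fin N → ℚ)
    (r : ℕ → ℕ) (f₀ : Fin m → Fin N) (hf₀ : ∀ j : Fin m, (j : ℕ) < r ((f₀ j : ℕ) + 1))
    (hpiv : ∀ j, u j (f₀ j) ≠ 0) (htri : ∀ a j, a < j → u a (f₀ j) = 0) :
    (Matrix.of fun j a : Fin m => ∑ i : Fin N, ((u a i : ℚ) : ℂ) *
      (if (j : ℕ) < r ((i : ℕ) + 1) then θ ^ (2 ^ ((i : ℕ) * R + (j : ℕ))) else 0)).det ≠ 0 := by
  classical
  rw [det_expand u fun (i : Fin N) (j : Fin m) =>
    if (j : ℕ) < r ((i : ℕ) + 1) then θ ^ (2 ^ ((i : ℕ) * R + (j : ℕ))) else 0]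
  let e : (Fin m → Fin N) → ℕ := fun f => ∑ j, 2 ^ ((f j : ℕ) * R + (j : ℕ))
  have he : ∀ f, e f < n := by
    intro f
    refine lt_of_le_of_lt ?_ hn
    calc e f ≤ ∑ _j : Fin m, 2 ^ (N * R) := by
          refine Finset.sum_le_sum fun j _ => Nat.pow_le_pow_right (by norm_num) ?_
          have h1 : (f j : ℕ) + 1 ≤ N := (f j).2
          have h2 : ((f j : ℕ) + 1) * R ≤ N * R := Nat.mul_le_mul_right R h1
          have h3 : (j : ℕ) < R := lt_of_lt_of_le j.2 hm
          nlinarith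
      _ = m * 2 ^ (N * R) := by simp
  have hli : LinearIndependent ℚ fun f : Fin m → Fin N => θ ^ (e f) := by
    have := hθ.comp (fun f : Fin m → Fin N => (⟨e f, he f⟩ : Fin n)) fun f g hfg =>
      exp_injective hm (Fin.mk.inj hfg)
    exact this
  intro h0
  let c : (Fin m → Fin N) → ℚ := fun f =>
    if ∀ j : Fin m, (j : ℕ) < r ((f j : ℕ) + 1) then (Matrix.of fun j a : Fin m => u a (f j)).det else 0
  have hsum : ∑ f : Fin m → Fin N, c f • θ ^ (e f) = 0 := by
    rw [← h0]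
    refine Finset.sum_congr rfl fun f _ => ?_
    simp only [c]
    by_cases hf : ∀ j : Fin m, (j : ℕ) < r ((f j : ℕ) + 1)
    · rw [if_pos hf, Rat.smul_def, mul_comm]
      congr 1
      rw [Finset.prod_congr rfl fun j _ => if_pos (hf j), Finset.prod_pow_eq_pow_sum]
    · rw [if_neg hf, zero_smul]
      push Not at hf
      obtain ⟨j, hj⟩ := hf
      rw [Finset.prod_eq_zero (Finset.mem_univ j) (if_neg (not_lt.2 hj)), zero_mul]
  have hc := Fintype.linearIndependent_iff.1 hli c hsum f₀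
  simp only [c, if_pos hf₀] at hc
  rw [Matrix.det_of_isUpperTriangular] at hc
  · exact Finset.prod_ne_zero_iff.2 (fun j _ => hpiv j) hc
  · intro i j hij
    exact htri j i hij

/-- the jumps -/
theorem exists_jump {r : ℕ → ℕ} (h0 : r 0 = 0) (h1 : ∀ d, r (d + 1) ≤ r d + 1) {d j : ℕ}
    (hj : j < r d) : ∃ a < d, r a = j ∧ r (a + 1) = j + 1 := by
  classical
  have hex : ∃ b, j < r b := ⟨d, hj⟩
  have hb := Nat.find_spec hex
  have hle : Nat.find hex ≤ d := Nat.find_min' hex hj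
  obtain ⟨a, ha⟩ : ∃ a, Nat.find hex = a + 1 := by
    rcases Nat.eq_zero_or_pos (Nat.find hex) with h | h
    · rw [h, h0] at hb
      omega
    · exact ⟨Nat.find hex - 1, by omega⟩
  have hmin : ¬ j < r a := Nat.find_min hex (by omega)
  rw [ha] at hb hle
  have := h1 a
  exact ⟨a, by omega, by omega, by omega⟩

theorem le_strictMono {d N : ℕ} {p : Fin d → Fin N} (hp : StrictMono p) (a : Fin d) :
    (a : ℕ) ≤ (p a : ℕ) := by
  obtain ⟨k, hk⟩ := a
  induction k with
  | zero => exact Nat.zero_le _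
  | succ k ih =>
    have h1 := ih (by omega)
    have h2 : p ⟨k, by omega⟩ < p ⟨k + 1, hk⟩ := hp (by
      rw [Fin.lt_def]
      exact Nat.lt_succ_self k)
    rw [Fin.lt_def] at h2
    simp only at h1 ⊢
    omega

/-- the matrix, from the pivots -/
theorem mx_core (hEC : ∀ (N : ℕ) (U : Submodule ℚ (Fin N → ℚ)),
      ∃ (p : Fin (finrank ℚ U) → Fin N) (u : Fin (finrank ℚ U) → (Fin N → ℚ)), StrictMono p ∧
        ∀ a, u a ∈ U ∧ u a (p a) ≠ 0 ∧ ∀ i, p a < i → u a i = 0)
    (N : ℕ) (r : ℕ → ℕ) (h0 : r 0 = 0) (hr : ∀ d, r d ≤ r (d + 1) ∧ r (d + 1) ≤ r d + 1) :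
    ∃ V : Fin N → Fin (r N) → ℂ, (∀ i j, IsAlgebraic ℚ (V i j)) ∧
    (∀ (i : Fin N) (j : Fin (r N)), r ((i : ℕ) + 1) ≤ (j : ℕ) → V i j = 0) ∧
    ∀ U : Submodule ℚ (Fin N → ℚ), ∃ u : Fin (r (finrank ℚ U)) → (Fin N → ℚ), (∀ a, u a ∈ U) ∧
      LinearIndependent ℂ fun a j => ∑ i, ((u a i : ℚ) : ℂ) * V i j := by
  classical
  have hmono : Monotone r := monotone_nat_of_le_succ fun d => (hr d).1
  obtain ⟨θ, hθa, hθ⟩ := exists_pow (r N * 2 ^ (N * r N) + 1)
  refine ⟨fun i j => if (j : ℕ) < r ((i : ℕ) + 1) then θ ^ (2 ^ ((i : ℕ) * r N + (j : ℕ))) else 0,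
    fun i j => ?_, fun i j hij => if_neg (not_lt.2 hij), fun U => ?_⟩
  · by_cases h : (j : ℕ) < r ((i : ℕ) + 1)
    · simp only [if_pos h]
      exact hθa.pow _
    · simp only [if_neg h]
      exact isAlgebraic_zero
  · obtain ⟨p, u, hp, hu⟩ := hEC N U
    have hd : finrank ℚ U ≤ N := by
      have := Submodule.finrank_le U
      rwa [Module.finrank_fin_fun] at this
    have hm : r (finrank ℚ U) ≤ r N := hmono hd
    choose a ha using fun j : Fin (r (finrank ℚ U)) => exists_jump h0 (fun d => (hr d).2) j.2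
    have haS : ∀ i j : Fin (r (finrank ℚ U)), i < j → a i < a j := by
      intro i j hij
      by_contra hle
      rw [not_lt] at hle
      have h1 := hmono hle
      rw [(ha i).2.1, (ha j).2.1] at h1
      rw [Fin.lt_def] at hij
      omega
    refine ⟨fun j => u ⟨a j, (ha j).1⟩, fun j => (hu _).1, ?_⟩
    refine LinearIndependent.of_comp (LinearMap.funLeft ℂ ℂ (Fin.castLE hm)) ?_
    have hdet := minor_ne (N := N) hm (lt_of_le_of_lt (Nat.mul_le_mul_right _ hm)
      (Nat.lt_succ_self _)) hθ (fun j => u ⟨a j, (ha j).1⟩) r (fun j => p ⟨a j, (ha j).1⟩)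
      (fun j => ?_) (fun j => (hu _).2.1) (fun i j hij => (hu _).2.2 _ (hp ?_))
    · rw [← Matrix.det_transpose] at hdet
      exact Matrix.linearIndependent_rows_of_det_ne_zero hdet
    · have h1 : a j + 1 ≤ (p ⟨a j, (ha j).1⟩ : ℕ) + 1 :=
        Nat.succ_le_succ (le_strictMono hp ⟨a j, (ha j).1⟩)
      have h2 := hmono h1
      have h3 := (ha j).2.2
      exact lt_of_lt_of_le (by omega) h2
    · rw [Fin.lt_def]
      exact haS i j hij

end Pool.Agent.Helper18.SL
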