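import Pool.Agent.Helper35.SL.Stm
import Pool.Agent.Helper18.SL.MXcore

/-! Package MX. -/

set_option autoImplicit false

namespace Pool.Agent.Helper18.SL

theorem mx (h : Pool.Agent.Helper35.SL.S_EC) : Pool.Agent.Helper35.SL.S_MX :=
  fun N r h0 hr => mx_core h N r h0 hr

end Pool.Agent.Helper18.SL
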